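import Pool.Agent.Y132.FG.Gen
import Pool.Agent.TH125.Gal.Diag

/-!
# Averaging operators
-/

open CategoryTheory AlgebraicGeometry Finset

set_option linter.unusedSectionVars false

universe u v w

namespace Pool.Agent.Y132.FG

open Pool.Agent.H914 Pool.Agent.H914.VarClass Pool.Agent.H914.VarClass.Obj
  Pool.Agent.H914.WeilCohomology Pool.Agent.H281R3.HT Pool.Agent.W552 Pool.Agent.TH125.Gal
  Pool.Agent.Y132.EP

variable {k : Type u} [Field k] {𝒱 : VarClass k} {ops : CycleOps 𝒱}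
  {W : WeilCohomology.{u, v} ops} {Γ : Type w} [Group Γ] {ι : Type}

/-- Every subspace stable under a subgroup of finite index has a stable complement. -/
def SS (Y : DG W Γ) : Prop := ∀ Δ : Subgroup Γ, Δ.FiniteIndex → ∀ U : Submodule W.K (W.H Y.X),
  (∀ g ∈ Δ, ∀ a ∈ U, Y.act g a ∈ U) →
    ∃ U' : Submodule W.K (W.H Y.X), (∀ g ∈ Δ, ∀ a ∈ U', Y.act g a ∈ U') ∧ IsCompl U U'

variable (χ : Γ →* W.Kˣ)

/-- The twisted action. -/
noncomputable def tw (Y : DG W Γ) (m : ℕ) : Γ →* Module.End W.K (W.H Y.X) where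
  toFun g := (((χ g)⁻¹ ^ m : W.Kˣ) : W.K) • (Y.act g).toLinearMap
  map_one' := by
    rw [map_one, map_one, inv_one, one_pow, Units.val_one, one_smul]
    rfl
  map_mul' g g' := by
    rw [map_mul, map_mul, mul_inv, mul_pow, Units.val_mul]
    ext x
    simp only [LinearMap.smul_apply, Module.End.mul_apply, AlgEquiv.toLinearMap_apply,
      AlgEquiv.mul_apply, map_smul, smul_smul]
    rw [mul_comm]

theorem tw_apply (Y : DG W Γ) (m : ℕ) (g : Γ) (x : W.H Y.X) :
    tw χ Y m g x = (((χ g)⁻¹ ^ m : W.Kˣ) : W.K) • Y.act g x := rfl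

/-- `x` is multiplied by `χ ^ m` by the elements of `Δ`. -/
def Inv (Y : DG W Γ) (Δ : Subgroup Γ) (m : ℕ) (x : W.H Y.X) : Prop :=
  ∀ g ∈ Δ, Y.act g x = (χ g : W.K) ^ m • x

variable {χ}

theorem inv_iff {Y : DG W Γ} {Δ : Subgroup Γ} {m : ℕ} {x : W.H Y.X} :
    Inv χ Y Δ m x ↔ ∀ g ∈ Δ, tw χ Y m g x = x := by
  refine forall_congr' fun g => forall_congr' fun _ => ?_
  rw [tw_apply]
  constructor
  · intro h
    rw [h, smul_smul, ← Units.val_pow_eq_pow_val, ← Units.val_mul, ← mul_pow, inv_mul_cancel,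
      one_pow, Units.val_one, one_smul]
  · intro h
    conv_rhs => rw [← h]
    rw [smul_smul, ← Units.val_pow_eq_pow_val, ← Units.val_mul, ← mul_pow, mul_inv_cancel,
      one_pow, Units.val_one, one_smul]

variable (χ)

/-- The averaging operators. -/
noncomputable def av (Y : DG W Γ) (m : ℕ) (Δ : Subgroup Γ) :
    MonoidAlgebra W.K Δ →ₐ[W.K] Module.End W.K (W.H Y.X) :=
  MonoidAlgebra.lift W.K (Module.End W.K (W.H Y.X)) Δ ((tw χ Y m).comp Δ.subtype)

/-- The augmentation. -/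
noncomputable def aug (Δ : Subgroup Γ) : MonoidAlgebra W.K Δ →ₐ[W.K] W.K :=
  MonoidAlgebra.lift W.K W.K Δ 1

variable {χ}

theorem av_of (Y : DG W Γ) (m : ℕ) (Δ : Subgroup Γ) (g : Δ) :
    av χ Y m Δ (MonoidAlgebra.of W.K Δ g) = tw χ Y m g := by
  rw [av, MonoidAlgebra.lift_of]
  rfl

theorem aug_of (Δ : Subgroup Γ) (g : Δ) :
    aug (W := W) Δ (MonoidAlgebra.of W.K Δ g) = 1 := by
  rw [aug, MonoidAlgebra.lift_of]
  rfl

theorem av_inv {Y : DG W Γ} {m : ℕ} {Δ : Subgroup Γ} {x : W.H Y.X} (hx : Inv χ Y Δ m x)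
    (a : MonoidAlgebra W.K Δ) : av χ Y m Δ a x = aug (W := W) Δ a • x := by
  induction a using MonoidAlgebra.induction_on with
  | of g =>
    rw [av_of, aug_of, one_smul]
    exact inv_iff.1 hx g g.2
  | add a b ha hb => rw [map_add, map_add, LinearMap.add_apply, ha, hb, add_smul]
  | smul r a ha => rw [map_smul, map_smul, LinearMap.smul_apply, ha, smul_eq_mul, mul_smul]

theorem av_mul {Y : DG W Γ} {m j : ℕ} {Δ : Subgroup Γ} (x : W.H Y.X) {t : W.H Y.X}
    (ht : Inv χ Y Δ j t) (a : MonoidAlgebra W.K Δ) :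
    av χ Y (m + j) Δ a (x * t) = av χ Y m Δ a x * t := by
  induction a using MonoidAlgebra.induction_on with
  | of g =>
    rw [av_of, av_of, tw_apply, tw_apply, map_mul, pow_add, Units.val_mul]
    have h1 := inv_iff.1 ht g g.2
    rw [tw_apply] at h1
    rw [mul_smul, smul_mul_assoc, ← mul_smul_comm, h1]
  | add a b ha hb =>
    rw [map_add, map_add, LinearMap.add_apply, LinearMap.add_apply, ha, hb, add_mul]
  | smul r a ha =>
    rw [map_smul, map_smul, LinearMap.smul_apply, LinearMap.smul_apply, ha, smul_mul_assoc]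

theorem av_map {Y Y' : DG W Γ} {m : ℕ} {Δ : Subgroup Γ} (f : Y'.X ⟶ Y.X)
    (hf : ∀ g x, Y'.act g (W.map f x) = W.map f (Y.act g x)) (x : W.H Y.X)
    (a : MonoidAlgebra W.K Δ) :
    av χ Y' m Δ a (W.map f x) = W.map f (av χ Y m Δ a x) := by
  induction a using MonoidAlgebra.induction_on with
  | of g => rw [av_of, av_of, tw_apply, tw_apply, hf, map_smul]
  | add a b ha hb =>
    rw [map_add, map_add, LinearMap.add_apply, LinearMap.add_apply, ha, hb, map_add]
  | smul r a ha =>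
    rw [map_smul, map_smul, LinearMap.smul_apply, LinearMap.smul_apply, ha, map_smul]

theorem av_mem {Y : DG W Γ} {m : ℕ} {Δ : Subgroup Γ} {U : Submodule W.K (W.H Y.X)}
    (hU : ∀ g ∈ Δ, ∀ x ∈ U, Y.act g x ∈ U) {x : W.H Y.X} (hx : x ∈ U)
    (a : MonoidAlgebra W.K Δ) : av χ Y m Δ a x ∈ U := by
  induction a using MonoidAlgebra.induction_on with
  | of g =>
    rw [av_of, tw_apply]
    exact U.smul_mem _ (hU g g.2 x hx)
  | add a b ha hb =>
    rw [map_add, LinearMap.add_apply]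
    exact U.add_mem ha hb
  | smul r a ha =>
    rw [map_smul, LinearMap.smul_apply]
    exact U.smul_mem r ha

theorem exists_avg {Y : DG W Γ} (hY : SS Y) (m : ℕ) {Δ : Subgroup Γ} (hΔ : Δ.FiniteIndex)
    (x : W.H Y.X) : ∃ a : MonoidAlgebra W.K Δ, aug (W := W) Δ a = 1 ∧
      Inv χ Y Δ m (av χ Y m Δ a x) := by
  let U : Submodule W.K (W.H Y.X) :=
    { carrier := {y | ∃ c : MonoidAlgebra W.K Δ, aug (W := W) Δ c = 0 ∧ av χ Y m Δ c x = y}
      zero_mem' := ⟨0, map_zero _, by rw [map_zero]; rfl⟩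
      add_mem' := by
        rintro _ _ ⟨c, hc, rfl⟩ ⟨c', hc', rfl⟩
        exact ⟨c + c', by rw [map_add, hc, hc', add_zero], by
          rw [map_add, LinearMap.add_apply]⟩
      smul_mem' := by
        rintro r _ ⟨c, hc, rfl⟩
        exact ⟨r • c, by rw [map_smul, hc, smul_zero], by
          rw [map_smul, LinearMap.smul_apply]⟩ }
  have hU : ∀ g ∈ Δ, ∀ y ∈ U, Y.act g y ∈ U := by
    rintro g hg _ ⟨c, hc, rfl⟩
    have h1 : tw χ Y m g (av χ Y m Δ c x) ∈ U := by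
      refine ⟨MonoidAlgebra.of W.K Δ ⟨g, hg⟩ * c, by rw [map_mul, hc, mul_zero], ?_⟩
      rw [map_mul, av_of]
      rfl
    rw [tw_apply] at h1
    have h2 := U.smul_mem (((χ g) ^ m : W.Kˣ) : W.K) h1
    rwa [smul_smul, ← Units.val_mul, ← mul_pow, mul_inv_cancel, one_pow, Units.val_one,
      one_smul] at h2
  obtain ⟨U', hU', hc⟩ := hY Δ hΔ U hU
  have hx : x ∈ U ⊔ U' := by
    rw [hc.sup_eq_top]
    exact Submodule.mem_top
  obtain ⟨_, ⟨c, hc0, rfl⟩, u', hu', hsum⟩ := Submodule.mem_sup.1 hx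
  have h3 : av χ Y m Δ (1 - c) x = u' := by
    rw [map_sub, map_one, LinearMap.sub_apply, Module.End.one_apply]
    exact (eq_sub_of_add_eq' hsum).symm
  refine ⟨1 - c, by rw [map_sub, map_one, hc0, sub_zero], inv_iff.2 fun g hg => ?_⟩
  rw [h3]
  have h4 : tw χ Y m g u' - u' ∈ U := by
    refine ⟨(MonoidAlgebra.of W.K Δ ⟨g, hg⟩ - 1) * (1 - c), ?_, ?_⟩
    · rw [map_mul, map_sub, aug_of, map_one, sub_self, zero_mul]
    · rw [map_mul, map_sub, av_of, map_one, Module.End.mul_apply, h3]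
      rfl
  have h5 : tw χ Y m g u' - u' ∈ U' := by
    refine U'.sub_mem ?_ hu'
    rw [tw_apply]
    exact U'.smul_mem _ (hU' g hg u' hu')
  have h6 : tw χ Y m g u' - u' = 0 := by
    have h7 := Submodule.mem_inf.2 ⟨h4, h5⟩
    rwa [hc.inf_eq_bot, Submodule.mem_bot] at h7
  exact sub_eq_zero.1 h6

theorem exists_avg_list {Y : DG W Γ} (hY : SS Y) {Δ : Subgroup Γ} (hΔ : Δ.FiniteIndex)
    (l : List (ℕ × W.H Y.X)) : ∃ a : MonoidAlgebra W.K Δ, aug (W := W) Δ a = 1 ∧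
      ∀ p ∈ l, Inv χ Y Δ p.1 (av χ Y p.1 Δ a p.2) := by
  induction l with
  | nil => exact ⟨1, map_one _, fun p hp => absurd hp List.not_mem_nil⟩
  | cons p l ih =>
    obtain ⟨a₁, h1, h2⟩ := ih
    obtain ⟨a₂, h3, h4⟩ := exists_avg (χ := χ) hY p.1 hΔ (av χ Y p.1 Δ a₁ p.2)
    refine ⟨a₂ * a₁, by rw [map_mul, h1, h3, one_mul], fun q hq => ?_⟩
    rw [map_mul, Module.End.mul_apply]
    rcases List.mem_cons.1 hq with rfl | hq
    · exact h4
    · rw [av_inv (h2 q hq), h3, one_smul]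
      exact h2 q hq

end Pool.Agent.Y132.FG
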