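import Pool.Agent.Y132.FG.Avg

/-!
# Tate classes in families generated by Tate classes
-/

open CategoryTheory AlgebraicGeometry Finset

set_option linter.unusedSectionVars false

universe u v w

namespace Pool.Agent.Y132.FG

open Pool.Agent.H914 Pool.Agent.H914.VarClass Pool.Agent.H914.VarClass.Obj
  Pool.Agent.H914.WeilCohomology Pool.Agent.H281R3.HT Pool.Agent.W552 Pool.Agent.TH125.Gal
  Pool.Agent.Y132.EP

variable {k : Type u} [Field k] {𝒱 : VarClass k} {ops : CycleOps 𝒱}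
  {W : WeilCohomology.{u, v} ops} {Γ : Type w} [Group Γ] {ι : Type}
  {X : ι → DG W Γ} {Z : DG W Γ}

/-- The projection to the product of the factors `X i`. -/
noncomputable def qm (X : ι → DG W Γ) (Z : DG W Γ) (i : ι) : ∀ L : List ι,
    ((twr X Z (L ++ [i])).X ⟶ (twr X (X i) L).X)
  | [] => fst (X i).X Z.X
  | l :: L => Obj.lift (X := (X l).X) (Y := (twr X (X i) L).X)
      (fst (X l).X (twr X Z (L ++ [i])).X) (snd (X l).X (twr X Z (L ++ [i])).X ≫ qm X Z i L)

section qm

variable (i l : ι) (L : List ι)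

theorem qm_nil (a : W.H (X i).X) : W.map (qm X Z i []) a = W.map (fst (X i).X Z.X) a := rfl

theorem qm_fst (a : W.H (X l).X) :
    W.map (qm X Z i (l :: L)) (W.map (fst (X l).X (twr X (X i) L).X) a) =
      W.map (fst (X l).X (twr X Z (L ++ [i])).X) a := by
  rw [qm, ← W.map_comp]
  congr 2
  exact lift_fst _ _

theorem qm_snd (y : W.H (twr X (X i) L).X) :
    W.map (qm X Z i (l :: L)) (W.map (snd (X l).X (twr X (X i) L).X) y) =
      W.map (snd (X l).X (twr X Z (L ++ [i])).X) (W.map (qm X Z i L) y) := by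
  rw [qm, ← W.map_comp, ← W.map_comp]
  congr 2
  exact lift_snd _ _

end qm

theorem qm_act (i : ι) (g : Γ) : ∀ (L : List ι) (y : W.H (twr X (X i) L).X),
    (twr X Z (L ++ [i])).act g (W.map (qm X Z i L) y) =
      W.map (qm X Z i L) ((twr X (X i) L).act g y)
  | [], y => DG.act_fst (X i) Z g y
  | l :: L, y => by
    refine W.kunneth_induction (p := fun y => (twr X Z (l :: L ++ [i])).act g
      (W.map (qm X Z i (l :: L)) y) = W.map (qm X Z i (l :: L))
        ((twr X (X i) (l :: L)).act g y)) ?_ ?_ y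
    · intro a b ha hb
      rw [map_add, map_add, map_add, map_add, ha, hb]
    · intro p q a _ b _
      rw [map_mul, qm_fst, qm_snd, DG.act_ext, map_mul (W.map (qm X Z i (l :: L))), qm_fst,
        qm_snd, ← qm_act i g L]
      exact DG.act_ext (X l) (twr X Z (L ++ [i])) g a _

theorem qm_mem (i : ι) : ∀ (L : List ι) (y : W.H (twr X (X i) L).X),
    W.map (qm X Z i L) y ∈ xp X Z (L ++ [i])
  | [], y => fst_mem_xp i [] y
  | l :: L, y => by
    refine W.kunneth_induction (p := fun y => W.map (qm X Z i (l :: L)) y ∈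
      xp X Z (l :: L ++ [i])) ?_ ?_ y
    · intro a b ha hb
      rw [map_add]
      exact Subalgebra.add_mem _ ha hb
    · intro p q a _ b _
      rw [map_mul, qm_fst, qm_snd]
      exact Subalgebra.mul_mem _ (fst_mem_xp l (L ++ [i]) a) (snd_mem_xp l (qm_mem i L b))

theorem exists_qm (i : ι) : ∀ (L : List ι) (x : W.H (twr X Z (L ++ [i])).X),
    x ∈ xp X Z (L ++ [i]) → ∃ y, W.map (qm X Z i L) y = x
  | [], x, hx => by
    have h1 : xp X Z [i] ≤ (W.map (qm X Z i [])).range := by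
      refine xp_cons_le (fun a => ⟨a, rfl⟩) fun y hy => ?_
      obtain ⟨c, rfl⟩ := Algebra.mem_bot.1 hy
      exact ⟨algebraMap _ _ c, by
        rw [AlgHom.toRingHom_eq_coe, RingHom.coe_coe, AlgHom.commutes, AlgHom.commutes]
        rfl⟩
    obtain ⟨y, hy⟩ := h1 hx
    exact ⟨y, hy⟩
  | l :: L, x, hx => by
    have h1 : xp X Z (l :: (L ++ [i])) ≤ (W.map (qm X Z i (l :: L))).range := by
      refine xp_cons_le (fun a => ?_) fun y hy => ?_
      · exact ⟨W.map (fst (X l).X (twr X (X i) L).X) a, qm_fst i l L a⟩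
      · obtain ⟨y', rfl⟩ := exists_qm i L y hy
        exact ⟨W.map (snd (X l).X (twr X (X i) L).X) y', qm_snd i l L y'⟩
    obtain ⟨y, hy⟩ := h1 hx
    exact ⟨y, hy⟩

theorem proj_map {A B : 𝒱.Obj} (f : A ⟶ B) (d : ℕ) (y : W.H B) :
    proj (W.isInternal A) d (W.map f y) = W.map f (proj (W.isInternal B) d y) := by
  refine gr_induction (W.isInternal B) (p := fun y => proj (W.isInternal A) d (W.map f y) =
    W.map f (proj (W.isInternal B) d y)) ?_ ?_ y
  · intro i a ha
    by_cases h : i = d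
    · subst h
      rw [proj_same _ ha, proj_same _ (W.map_mem f ha)]
    · rw [proj_ne _ ha h, proj_ne _ (W.map_mem f ha) h, map_zero]
  · intro a b ha hb
    rw [map_add, map_add, map_add, map_add, ha, hb]

theorem proj_xp {C : List ι} (hC : C ≠ []) {x : W.H (twr X Z C).X} (hx : x ∈ xp X Z C) (d : ℕ) :
    proj (W.isInternal (twr X Z C).X) d x ∈ xp X Z C := by
  rcases List.eq_nil_or_concat C with h | ⟨L, i, h⟩
  · exact absurd h hC
  · rw [List.concat_eq_append] at h
    subst h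
    obtain ⟨y, rfl⟩ := exists_qm i L x hx
    rw [proj_map]
    exact qm_mem i L _

theorem proj_mul {A : 𝒱.Obj} {j : ℕ} {t : W.H A} (ht : t ∈ W.gr A j) (m : ℕ) (x : W.H A) :
    proj (W.isInternal A) (m + j) (x * t) = proj (W.isInternal A) m x * t := by
  refine gr_induction (W.isInternal A) (p := fun x => proj (W.isInternal A) (m + j) (x * t) =
    proj (W.isInternal A) m x * t) ?_ ?_ x
  · intro i a ha
    by_cases h : i = m
    · subst h
      rw [proj_same _ ha, proj_same _ (W.mul_mem ha ht)]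
    · rw [proj_ne _ ha h, proj_ne _ (W.mul_mem ha ht) (by omega), zero_mul]
  · intro a b ha hb
    rw [add_mul, map_add, map_add, add_mul, ha, hb]

theorem proj_mul_lt {A : 𝒱.Obj} {j d : ℕ} {t : W.H A} (ht : t ∈ W.gr A j) (hd : d < j)
    (x : W.H A) : proj (W.isInternal A) d (x * t) = 0 := by
  refine gr_induction (W.isInternal A) (p := fun x => proj (W.isInternal A) d (x * t) = 0)
    ?_ ?_ x
  · intro i a ha
    rw [proj_ne _ (W.mul_mem ha ht) (by omega)]
  · intro a b ha hb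
    rw [add_mul, map_add, ha, hb, add_zero]

theorem act_xp (g : Γ) : ∀ (C : List ι) (x : W.H (twr X Z C).X), x ∈ xp X Z C →
    (twr X Z C).act g x ∈ xp X Z C
  | [], x, hx => by
    obtain ⟨c, rfl⟩ := Algebra.mem_bot.1 hx
    rw [AlgEquiv.commutes]
    exact hx
  | i :: C, x, hx => by
    have h1 : xp X Z (i :: C) ≤ (xp X Z (i :: C)).comap
        ((twr X Z (i :: C)).act g : W.H (twr X Z (i :: C)).X →ₐ[W.K] _) := by
      refine xp_cons_le (fun a => ?_) fun y hy => ?_
      · rw [Subalgebra.mem_comap]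
        have h2 := DG.act_fst (X i) (twr X Z C) g a
        change (twr X Z (i :: C)).act g _ ∈ _
        rw [h2]
        exact fst_mem_xp i C _
      · rw [Subalgebra.mem_comap]
        have h2 := DG.act_snd (X i) (twr X Z C) g y
        change (twr X Z (i :: C)).act g _ ∈ _
        rw [h2]
        exact snd_mem_xp i (act_xp g C y hy)
    exact h1 hx

variable (χ : Γ →* W.Kˣ)

/-- Tate classes -/
def Tt (Y : DG W Γ) (j : ℕ) (t : W.H Y.X) : Prop :=
  t ∈ W.gr Y.X (2 * j) ∧ ∃ Δ : Subgroup Γ, Δ.FiniteIndex ∧ Inv χ Y Δ j t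

variable {χ}

theorem Inv.mono {Y : DG W Γ} {Δ Δ' : Subgroup Γ} (h : Δ' ≤ Δ) {m : ℕ} {x : W.H Y.X}
    (hx : Inv χ Y Δ m x) : Inv χ Y Δ' m x := fun g hg => hx g (h hg)

/-- The terms. -/
structure Trm (χ : Γ →* W.Kˣ) (S : ∀ A : List ι, Set (W.H (twr X Z A).X)) (N : ℕ) (C : List ι)
    (j : ℕ) where
  A : List ι
  th : Th A C
  len : A.length ≤ N
  x : W.H (twr X Z C).X
  x_mem : x ∈ xp X Z C
  m : ℕ
  x_gr : x ∈ W.gr (twr X Z C).X (2 * m)
  t : W.H (twr X Z A).X
  t_mem : t ∈ S A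
  n : ℕ
  t_tate : Tt χ (twr X Z A) n t
  sum : m + n = j

variable {S : ∀ A : List ι, Set (W.H (twr X Z A).X)} {N : ℕ} {C : List ι} {j : ℕ}

/-- The value of a term. -/
noncomputable def Trm.val (p : Trm χ S N C j) : W.H (twr X Z C).X :=
  p.x * W.map (pr X Z p.th) p.t

theorem exists_terms (hC : C ≠ []) (hS : ∀ A, ∀ t ∈ S A, ∃ n, Tt χ (twr X Z A) n t)
    {t : W.H (twr X Z C).X} (ht : t ∈ gen S N C) : ∃ l : List (Trm χ S N C j),
      proj (W.isInternal (twr X Z C).X) (2 * j) t = (l.map Trm.val).sum := by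
  unfold gen at ht
  induction ht using Submodule.span_induction with
  | mem t ht =>
    obtain ⟨A, u, hA, x, hx, t, ht, rfl⟩ := ht
    obtain ⟨n, hn⟩ := hS A t ht
    by_cases hnj : n ≤ j
    · obtain ⟨m, rfl⟩ := Nat.exists_eq_add_of_le hnj
      refine ⟨[⟨A, u, hA, proj (W.isInternal (twr X Z C).X) (2 * m) x, proj_xp hC hx _, m,
        proj_mem _ _ _, t, ht, n, hn, by omega⟩], ?_⟩
      rw [List.map_singleton, List.sum_singleton, Trm.val, Nat.mul_add,
        Nat.add_comm (2 * n) (2 * m)]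
      exact proj_mul (W.map_mem _ hn.1) (2 * m) x
    · refine ⟨[], ?_⟩
      rw [List.map_nil, List.sum_nil]
      exact proj_mul_lt (W.map_mem _ hn.1) (by omega) x
  | zero =>
    refine ⟨[], ?_⟩
    rw [map_zero, List.map_nil, List.sum_nil]
  | add t t' _ _ h h' =>
    obtain ⟨l, hl⟩ := h
    obtain ⟨l', hl'⟩ := h'
    refine ⟨l ++ l', ?_⟩
    rw [map_add, hl, hl', List.map_append, List.sum_append]
  | smul r t _ h =>
    obtain ⟨l, hl⟩ := h
    refine ⟨l.map fun p => ⟨p.A, p.th, p.len, r • p.x, Subalgebra.smul_mem _ p.x_mem r, p.m,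
      Submodule.smul_mem _ r p.x_gr, p.t, p.t_mem, p.n, p.t_tate, p.sum⟩, ?_⟩
    rw [map_smul, hl, List.map_map, List.smul_sum, List.map_map]
    congr 1
    refine List.map_congr_left fun p _ => ?_
    rw [Function.comp_apply, Function.comp_apply, Trm.val, Trm.val, smul_mul_assoc]

theorem exists_group {t : W.H (twr X Z C).X} (ht : ∃ Δ : Subgroup Γ, Δ.FiniteIndex ∧
    Inv χ (twr X Z C) Δ j t) (l : List (Trm χ S N C j)) :
    ∃ Δ : Subgroup Γ, Δ.FiniteIndex ∧ Inv χ (twr X Z C) Δ j t ∧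
      ∀ p ∈ l, Inv χ (twr X Z p.A) Δ p.n p.t := by
  induction l with
  | nil =>
    obtain ⟨Δ, h1, h2⟩ := ht
    exact ⟨Δ, h1, h2, fun p hp => absurd hp List.not_mem_nil⟩
  | cons p l ih =>
    obtain ⟨Δ, h1, h2, h3⟩ := ih
    obtain ⟨Δ', h4, h5⟩ := p.t_tate.2
    refine ⟨Δ ⊓ Δ', inferInstance, h2.mono inf_le_left, fun q hq => ?_⟩
    rcases List.mem_cons.1 hq with rfl | hq
    · exact h5.mono inf_le_right
    · exact (h3 q hq).mono inf_le_left

/-- **Tate classes in a family generated by Tate classes.** -/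
theorem tate_gen (hss : ∀ i L, SS (twr X (X i) L)) (hC : C ≠ [])
    (hS : ∀ A, ∀ t ∈ S A, ∃ n, Tt χ (twr X Z A) n t)
    {t : W.H (twr X Z C).X} (ht : t ∈ gen S N C) (htt : Tt χ (twr X Z C) j t) :
    ∃ l : List (Trm χ S N C j), (∀ p ∈ l, Tt χ (twr X Z C) p.m p.x) ∧
      t = (l.map Trm.val).sum := by
  obtain ⟨l, hl⟩ := exists_terms (j := j) hC hS ht
  rw [proj_same _ htt.1] at hl
  obtain ⟨Δ, h1, h2, h3⟩ := exists_group htt.2 l
  rcases List.eq_nil_or_concat C with h | ⟨L, i, h⟩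
  · exact absurd h hC
  rw [List.concat_eq_append] at h
  subst h
  have h4 : ∀ p : Trm χ S N (L ++ [i]) j, ∃ y, W.map (qm X Z i L) y = p.x :=
    fun p => exists_qm i L p.x p.x_mem
  choose y hy using h4
  obtain ⟨a, ha, ha'⟩ := exists_avg_list (χ := χ) (hss i L) h1 (l.map fun p => (p.m, y p))
  have h5 : ∀ p ∈ l, Inv χ (twr X Z (L ++ [i])) Δ p.m
      (av χ (twr X Z (L ++ [i])) p.m Δ a p.x) := by
    intro p hp
    have h6 := ha' (p.m, y p) (List.mem_map.2 ⟨p, hp, rfl⟩)
    rw [← hy p, av_map (qm X Z i L) (fun g x => qm_act i g L x)]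
    intro g hg
    rw [qm_act, h6 g hg, map_smul]
  let F : Trm χ S N (L ++ [i]) j → Trm χ S N (L ++ [i]) j := fun p =>
    ⟨p.A, p.th, p.len, av χ (twr X Z (L ++ [i])) p.m Δ a p.x,
      av_mem (U := Subalgebra.toSubmodule (xp X Z (L ++ [i])))
        (fun g _ x hx => act_xp g _ x hx) p.x_mem a, p.m,
      av_mem (U := W.gr (twr X Z (L ++ [i])).X (2 * p.m))
        (fun g _ x hx => (twr X Z (L ++ [i])).deg g _ x hx) p.x_gr a, p.t, p.t_mem, p.n,
      p.t_tate, p.sum⟩
  refine ⟨l.map F, ?_, ?_⟩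
  · intro p hp
    obtain ⟨q, hq, rfl⟩ := List.mem_map.1 hp
    exact ⟨(F q).x_gr, Δ, h1, h5 q hq⟩
  · have h7 := av_inv h2 a
    rw [ha, one_smul] at h7
    rw [← h7]
    conv_lhs => rw [hl]
    rw [map_list_sum, List.map_map, List.map_map]
    congr 1
    refine List.map_congr_left fun p hp => ?_
    rw [Function.comp_apply, Function.comp_apply, Trm.val, Trm.val]
    have h8 : Inv χ (twr X Z (L ++ [i])) Δ p.n (W.map (pr X Z p.th) p.t) := by
      intro g hg
      rw [pr_act, h3 p hp g hg, map_smul]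
    have h9 := av_mul (m := p.m) p.x h8 a
    rw [p.sum] at h9
    exact h9

end Pool.Agent.Y132.FG
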