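import Pool.Agent.TH125.Gal.Pub2

/-!
# Products of varieties with semisimple Galois actions: definitions
-/

open CategoryTheory AlgebraicGeometry

universe u v w

namespace Pool.Agent.Y132.FG

open Pool.Agent.TH125.Gal

section Alg

variable {K : Type*} [Field K] {A : Type*} [Ring A] [Algebra K A] {Γ : Type*} [Group Γ]

/-- The action preserves the subspaces `gr i`. -/
def GradedAct (gr : ℕ → Submodule K A) (ρ : Γ →* (A ≃ₐ[K] A)) : Prop :=
  ∀ g i, ∀ a ∈ gr i, ρ g a ∈ gr i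

/-- Every subspace which is stable under a subgroup of finite index has a complement which is
stable under this subgroup. -/
def SemisimpleAct (ρ : Γ →* (A ≃ₐ[K] A)) : Prop :=
  ∀ Δ : Subgroup Γ, Δ.FiniteIndex → ∀ U : Submodule K A, (∀ g ∈ Δ, ∀ a ∈ U, ρ g a ∈ U) →
    ∃ U' : Submodule K A, (∀ g ∈ Δ, ∀ a ∈ U', ρ g a ∈ U') ∧ IsCompl U U'

/-- `t` has degree `2 * j`, and all elements `g` of a subgroup of finite index map it to
`χ g ^ j • t`. -/
def TateElt (χ : Γ →* Kˣ) (gr : ℕ → Submodule K A) (ρ : Γ →* (A ≃ₐ[K] A)) (j : ℕ) (t : A) :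
    Prop :=
  t ∈ gr (2 * j) ∧ ∃ Δ : Subgroup Γ, Δ.FiniteIndex ∧ ∀ g ∈ Δ, ρ g t = (χ g : K) ^ j • t

end Alg

open Pool.Agent.H914 Pool.Agent.H914.VarClass Pool.Agent.H914.VarClass.Obj
  Pool.Agent.H914.WeilCohomology

variable {k : Type u} [Field k] {𝒱 : VarClass k} {ops : CycleOps 𝒱}
  {W : WeilCohomology.{u, v} ops} {Γ : Type w} [Group Γ]

/-- `Y` is the product `X i₁ × (X i₂ × (⋯ × Z))` for the list `[i₁, i₂, …]`, with a compatible
action of `Γ` on the cohomology. -/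
inductive IsTower {ι : Type} (X : ι → GVar W Γ) (Z : GVar W Γ) : List ι → GVar W Γ → Prop
  | nil : IsTower X Z [] Z
  | cons (i : ι) {L : List ι} {Y Y' : GVar W Γ} : IsTower X Z L Y → IsProdVar (X i) Y Y' →
      IsTower X Z (i :: L) Y'

/-- The action of `Γ` on the cohomology of `Z` preserves the degrees. -/
def GradedVar (Z : GVar W Γ) : Prop := GradedAct (W.gr Z.X) Z.act

/-- All subgroups of finite index of `Γ` act semisimply on the cohomology of `Y`. -/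
def SemisimpleVar (Y : GVar W Γ) : Prop := SemisimpleAct Y.act

/-- `t` is a Tate class of codimension `j` on `Y`: it has degree `2 * j`, and all elements `g` of a
subgroup of finite index map it to `χ g ^ j • t`. -/
def IsTateClass (χ : Γ →* W.Kˣ) (Y : GVar W Γ) (j : ℕ) (t : W.H Y.X) : Prop :=
  TateElt χ (W.gr Y.X) Y.act j t

/-- An action of `Γ` on the cohomology of `V`. -/
abbrev ActOn (W : WeilCohomology.{u, v} ops) (Γ : Type w) [Group Γ] (V : 𝒱.Obj) : Type _ :=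
  Γ →* (W.H V ≃ₐ[W.K] W.H V)

/-- The morphism `id × p : A × B ⟶ A × C`. -/
noncomputable def idProd (A : 𝒱.Obj) {B C : 𝒱.Obj} (p : B ⟶ C) : A.prod B ⟶ A.prod C :=
  lift (fst A B) (snd A B ≫ p)

/-- The morphism `(a, b) ↦ p b : A × B ⟶ C`. -/
noncomputable def sndComp (A : 𝒱.Obj) {B C : 𝒱.Obj} (p : B ⟶ C) : A.prod B ⟶ C :=
  snd A B ≫ p

/-- `Y` is a product of `Z` with some of the `X i`, `Y'` is a product of `Z` with `n` of the factors
`X i` of `Y`, and `p` is the projection from `Y` to `Y'`. -/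
inductive IsSubprod {ι : Type} (X : ι → GVar W Γ) (Z : GVar W Γ) :
    ℕ → (Y Y' : GVar W Γ) → (Y.X ⟶ Y'.X) → Prop
  | base : IsSubprod X Z 0 Z Z (𝟙 Z.X)
  | keep (i : ι) {n : ℕ} {Y Y' : GVar W Γ} {p : Y.X ⟶ Y'.X}
      {υ : ActOn W Γ ((X i).X.prod Y.X)} {υ' : ActOn W Γ ((X i).X.prod Y'.X)} :
      IsSubprod X Z n Y Y' p → IsProdVar (X i) Y ⟨(X i).X.prod Y.X, υ⟩ →
      IsProdVar (X i) Y' ⟨(X i).X.prod Y'.X, υ'⟩ →
      IsSubprod X Z (n + 1) ⟨(X i).X.prod Y.X, υ⟩ ⟨(X i).X.prod Y'.X, υ'⟩ (idProd (X i).X p)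
  | skip (i : ι) {n : ℕ} {Y Y' : GVar W Γ} {p : Y.X ⟶ Y'.X}
      {υ : ActOn W Γ ((X i).X.prod Y.X)} :
      IsSubprod X Z n Y Y' p → IsProdVar (X i) Y ⟨(X i).X.prod Y.X, υ⟩ →
      IsSubprod X Z n ⟨(X i).X.prod Y.X, υ⟩ Y' (sndComp (X i).X p)

/-- The subalgebra of `H(Y)` generated by the pull-backs of the Tate classes on the products of `Z`
with at most `N` of the factors `X i` of `Y`, along the projections. -/
def subprodAlg (χ : Γ →* W.Kˣ) {ι : Type} (X : ι → GVar W Γ) (Z : GVar W Γ) (N : ℕ)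
    (Y : GVar W Γ) : Subalgebra W.K (W.H Y.X) :=
  Algebra.adjoin W.K {c | ∃ (n : ℕ) (Y' : GVar W Γ) (p : Y.X ⟶ Y'.X) (j : ℕ) (t : W.H Y'.X),
    n ≤ N ∧ IsSubprod X Z n Y Y' p ∧ IsTateClass χ Y' j t ∧ c = W.map p t}

end Pool.Agent.Y132.FG
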