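import Mathlib

/-!
# Noetherianity for families of subspaces indexed by words

A family of subspaces `L N w` of a finite-dimensional space, monotone in `N` and in the word `w`
(for the order of subwords), with `L N w ≤ L (length w) w`, is constant in `N` for large `N`,
uniformly in `w`. This is a consequence of Higman's lemma.
-/

namespace Pool.Agent.Y132.FG

theorem exists_N {K V α : Type*} [Field K] [AddCommGroup V] [Module K V] [FiniteDimensional K V]
    [Finite α] (L : ℕ → List α → Submodule K V)
    (hmono : ∀ (N M : ℕ) (w : List α), N ≤ M → L N w ≤ L M w)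
    (hsub : ∀ (N : ℕ) (w w' : List α), w.Sublist w' → L N w ≤ L N w')
    (hlen : ∀ (N : ℕ) (w : List α), L N w ≤ L w.length w) :
    ∃ N, ∀ M w, L M w ≤ L N w := by
  by_contra hcon
  push Not at hcon
  have h1 : ∀ N, ∃ w : List α, ¬ L w.length w ≤ L N w := by
    intro N
    obtain ⟨M, w, hw⟩ := hcon N
    exact ⟨w, fun h => hw ((hlen M w).trans h)⟩
  choose w hw using h1
  have hpwo : (Set.univ : Set α).PartiallyWellOrderedOn (fun a b : α => a = b) :=
    Set.finite_univ.partiallyWellOrderedOn
  have hH := Set.PartiallyWellOrderedOn.partiallyWellOrderedOn_sublistForall₂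
    (fun a b : α => a = b) hpwo
  haveI hpre : IsPreorder (List α) (List.SublistForall₂ (fun a b : α => a = b)) :=
    { refl := fun a => refl a
      trans := fun a b c h h' => _root_.trans h h' }
  obtain ⟨g, hg⟩ := hH.exists_monotone_subseq (f := w) (fun n x _ => Set.mem_univ x)
  have hsubl : ∀ m n, m ≤ n → (w (g m)).Sublist (w (g n)) := by
    intro m n hmn
    have h2 := hg m n hmn
    rw [List.sublistForall₂_iff] at h2
    obtain ⟨l, hl, hl'⟩ := h2
    have h3 : w (g m) = l := by
      rwa [List.forall₂_eq_eq_eq] at hl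
    rwa [h3]
  have hstep : ∀ n, ∃ m, Module.finrank K (L (w (g n)).length (w (g n))) <
      Module.finrank K (L (w (g m)).length (w (g m))) := by
    intro n
    obtain ⟨m, hm1, hm2⟩ : ∃ m, n ≤ m ∧ (w (g n)).length ≤ g m := by
      refine ⟨max n (w (g n)).length, le_max_left _ _, ?_⟩
      exact (le_max_right n (w (g n)).length).trans (g.strictMono.le_apply)
    refine ⟨m, Submodule.finrank_lt_finrank_of_lt ?_⟩
    have h4 : L (w (g n)).length (w (g n)) ≤ L (g m) (w (g m)) :=
      (hsub _ _ _ (hsubl n m hm1)).trans (hmono _ _ _ hm2)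
    have h5 : L (g m) (w (g m)) ≤ L (w (g m)).length (w (g m)) := hlen _ _
    exact lt_of_le_of_lt h4 (lt_of_le_not_ge h5 (hw (g m)))
  have hunb : ∀ k, ∃ n, k ≤ Module.finrank K (L (w (g n)).length (w (g n))) := by
    intro k
    induction k with
    | zero => exact ⟨0, Nat.zero_le _⟩
    | succ k ih =>
      obtain ⟨n, hn⟩ := ih
      obtain ⟨m, hm⟩ := hstep n
      exact ⟨m, by omega⟩
  obtain ⟨n, hn⟩ := hunb (Module.finrank K V + 1)
  have h6 := Submodule.finrank_le (L (w (g n)).length (w (g n)))
  omega

end Pool.Agent.Y132.FG
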