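import Pool.Agent.Y132.FG.Th
import Pool.Agent.Y132.FG.Noeth

/-!
# Families of subspaces generated by families of subsets
-/

open CategoryTheory AlgebraicGeometry Finset

set_option linter.unusedSectionVars false

universe u v w

namespace Pool.Agent.Y132.FG

open Pool.Agent.H914 Pool.Agent.H914.VarClass Pool.Agent.H914.VarClass.Obj
  Pool.Agent.H914.WeilCohomology Pool.Agent.H281R3.HT Pool.Agent.W552 Pool.Agent.TH125.Gal
  Pool.Agent.Y132.EP

variable {k : Type u} [Field k] {𝒱 : VarClass k} {ops : CycleOps 𝒱}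
  {W : WeilCohomology.{u, v} ops} {Γ : Type w} [Group Γ] {ι : Type}
  {X : ι → DG W Γ} {Z : DG W Γ}

theorem pr_refl : ∀ (A : List ι) (y : W.H (twr X Z A).X), W.map (pr X Z (Th.refl A)) y = y
  | [], y => pr_nil y
  | i :: A, y => by
    refine W.kunneth_induction (p := fun y => W.map (pr X Z (Th.refl (i :: A))) y = y) ?_ ?_ y
    · intro a b ha hb
      rw [map_add, ha, hb]
    · intro p q a _ b _
      rw [Th.refl, map_mul, pr_keep_fst, pr_keep_snd, pr_refl A]

/-- The subalgebra of the classes which come from the factors `X i`. -/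
noncomputable def xp (X : ι → DG W Γ) (Z : DG W Γ) : ∀ C : List ι,
    Subalgebra W.K (W.H (twr X Z C).X)
  | [] => ⊥
  | i :: C => (W.map (fst (X i).X (twr X Z C).X)).range ⊔
      (xp X Z C).map (W.map (snd (X i).X (twr X Z C).X))

theorem fst_mem_xp (i : ι) (C : List ι) (a : W.H (X i).X) :
    W.map (fst (X i).X (twr X Z C).X) a ∈ xp X Z (i :: C) := by
  rw [xp]
  exact (le_sup_left : _ ≤ _ ⊔ (xp X Z C).map (W.map (snd (X i).X (twr X Z C).X)))
    (AlgHom.mem_range_self _ a)

theorem snd_mem_xp (i : ι) {C : List ι} {y : W.H (twr X Z C).X} (hy : y ∈ xp X Z C) :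
    W.map (snd (X i).X (twr X Z C).X) y ∈ xp X Z (i :: C) := by
  rw [xp]
  exact (le_sup_right : _ ≤ (W.map (fst (X i).X (twr X Z C).X)).range ⊔ _)
    (Subalgebra.mem_map.2 ⟨y, hy, rfl⟩)

theorem xp_cons_le {i : ι} {C : List ι} {S : Subalgebra W.K (W.H (twr X Z (i :: C)).X)}
    (h1 : ∀ a : W.H (X i).X, W.map (fst (X i).X (twr X Z C).X) a ∈ S)
    (h2 : ∀ y ∈ xp X Z C, W.map (snd (X i).X (twr X Z C).X) y ∈ S) : xp X Z (i :: C) ≤ S := by
  rw [xp]
  refine sup_le ?_ ?_
  · rintro _ ⟨a, rfl⟩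
    exact h1 a
  · intro z hz
    obtain ⟨y, hy, rfl⟩ := Subalgebra.mem_map.1 hz
    exact h2 y hy

theorem pr_mem_xp : ∀ {A C : List ι} (u : Th A C) (x : W.H (twr X Z A).X), x ∈ xp X Z A →
    W.map (pr X Z u) x ∈ xp X Z C
  | _, _, .nil, x, hx => by
    rw [pr_nil]
    exact hx
  | _, _, .skip i u, x, hx => by
    rw [pr_skip]
    exact snd_mem_xp i (pr_mem_xp u x hx)
  | _, _, .keep i (A := A) (C := C) u, x, hx => by
    have h1 : xp X Z (i :: A) ≤ (xp X Z (i :: C)).comap (W.map (pr X Z (u.keep i))) := by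
      refine xp_cons_le ?_ ?_
      · intro a
        rw [Subalgebra.mem_comap, pr_keep_fst]
        exact fst_mem_xp i C a
      · intro y hy
        rw [Subalgebra.mem_comap, pr_keep_snd]
        exact snd_mem_xp i (pr_mem_xp u y hy)
    exact h1 hx

variable {b : ℕ} (E : Ltr X b)

theorem xw_mem : ∀ {A C : List ι} (u : Th A C) (w : List (Fin b)), xw E Z u w ∈ xp X Z C
  | _, _, .nil, _ => Subalgebra.one_mem _
  | _, _, .keep _ _, [] => Subalgebra.zero_mem _
  | _, _, .keep i u, _ :: w => snd_mem_xp i (xw_mem u w)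
  | _, _, .skip _ _, [] => Subalgebra.zero_mem _
  | _, _, .skip i u, s :: w => Subalgebra.mul_mem _ (fst_mem_xp i _ _) (snd_mem_xp i (xw_mem u w))

/-- The family generated by the sets `S A` with `A` of length at most `N`. -/
noncomputable def gen (S : ∀ A : List ι, Set (W.H (twr X Z A).X)) (N : ℕ) (C : List ι) :
    Submodule W.K (W.H (twr X Z C).X) :=
  Submodule.span W.K {y | ∃ (A : List ι) (u : Th A C), A.length ≤ N ∧ ∃ x ∈ xp X Z C,
    ∃ t ∈ S A, y = x * W.map (pr X Z u) t}

variable {S : ∀ A : List ι, Set (W.H (twr X Z A).X)}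

theorem gen_mono {N M : ℕ} (h : N ≤ M) (C : List ι) : gen S N C ≤ gen S M C := by
  refine Submodule.span_mono ?_
  rintro y ⟨A, u, hA, x, hx, t, ht, rfl⟩
  exact ⟨A, u, hA.trans h, x, hx, t, ht, rfl⟩

theorem gen_len (N : ℕ) (C : List ι) : gen S N C ≤ gen S C.length C := by
  refine Submodule.span_mono ?_
  rintro y ⟨A, u, hA, x, hx, t, ht, rfl⟩
  exact ⟨A, u, u.length_le, x, hx, t, ht, rfl⟩

theorem subset_gen (C : List ι) : S C ⊆ gen S C.length C := by
  intro t ht
  refine Submodule.subset_span ⟨C, Th.refl C, le_rfl, 1, Subalgebra.one_mem _, t, ht, ?_⟩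
  rw [pr_refl, one_mul]

theorem gen_ins {N : ℕ} {A C : List ι} (u : Th A C) {x : W.H (twr X Z C).X}
    (hx : x ∈ xp X Z C) {t : W.H (twr X Z A).X} (ht : t ∈ gen S N A) :
    x * W.map (pr X Z u) t ∈ gen S N C := by
  unfold gen at ht
  induction ht using Submodule.span_induction with
  | mem t ht =>
    obtain ⟨B, u', hB, x', hx', t', ht', rfl⟩ := ht
    refine Submodule.subset_span ⟨B, u'.comp u, hB, x * W.map (pr X Z u) x',
      Subalgebra.mul_mem _ hx (pr_mem_xp u x' hx'), t', ht', ?_⟩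
    rw [map_mul, pr_comp, mul_assoc]
  | zero =>
    rw [map_zero, mul_zero]
    exact Submodule.zero_mem _
  | add t t' _ _ h h' =>
    rw [map_add, mul_add]
    exact Submodule.add_mem _ h h'
  | smul r t _ h =>
    rw [map_smul, mul_smul_comm]
    exact Submodule.smul_mem _ r h

/-- The leading coefficients at the word `w`. -/
noncomputable def Ld {C : List ι} (G : Submodule W.K (W.H (twr X Z C).X)) (w : List (Fin b)) :
    Submodule W.K (W.H Z.X) where
  carrier := {z | ∃ t ∈ G, (∀ w', w < w' → cf E Z C t w' = 0) ∧ cf E Z C t w = z}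
  zero_mem' := ⟨0, Submodule.zero_mem _, fun w' _ => by rw [map_zero]; rfl, by
    rw [map_zero]
    rfl⟩
  add_mem' := by
    rintro z z' ⟨t, ht, h1, h2⟩ ⟨t', ht', h1', h2'⟩
    refine ⟨t + t', Submodule.add_mem _ ht ht', fun w' hw' => ?_, ?_⟩
    · rw [map_add, Pi.add_apply, h1 w' hw', h1' w' hw', add_zero]
    · rw [map_add, Pi.add_apply, h2, h2']
  smul_mem' := by
    rintro r z ⟨t, ht, h1, h2⟩
    refine ⟨r • t, Submodule.smul_mem _ r ht, fun w' hw' => ?_, ?_⟩
    · rw [map_smul, Pi.smul_apply, h1 w' hw', smul_zero]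
    · rw [map_smul, Pi.smul_apply, h2]

theorem mem_Ld {C : List ι} {G : Submodule W.K (W.H (twr X Z C).X)} {w : List (Fin b)}
    {z : W.H Z.X} : z ∈ Ld E G w ↔ ∃ t ∈ G, (∀ w', w < w' → cf E Z C t w' = 0) ∧
      cf E Z C t w = z := Iff.rfl

theorem Ld_mono {C : List ι} {G G' : Submodule W.K (W.H (twr X Z C).X)} (h : G ≤ G')
    (w : List (Fin b)) : Ld E G w ≤ Ld E G' w := by
  rintro z ⟨t, ht, h1, h2⟩
  exact ⟨t, h ht, h1, h2⟩

theorem Ld_ins {N : ℕ} {A C : List ι} (u : Th A C) {w : List (Fin b)} (hw : Vd E C w) :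
    Ld E (gen S N A) (res u w) ≤ Ld E (gen S N C) w := by
  rintro z ⟨t, ht, h1, h2⟩
  obtain ⟨ε, hε, h3⟩ := lead_eq E (Z := Z) u w hw
  refine ⟨ε⁻¹ • (xw E Z u w * W.map (pr X Z u) t),
    Submodule.smul_mem _ _ (gen_ins u (xw_mem E u w) ht), fun w' hw' => ?_, ?_⟩
  · rw [map_smul, Pi.smul_apply, lead_gt E u w w' hw' t h1, smul_zero]
  · rw [map_smul, Pi.smul_apply, h3, h2, smul_smul, inv_mul_cancel₀ hε, one_smul]

theorem le_of_Ld {C : List ι} {G G' : Submodule W.K (W.H (twr X Z C).X)} (hG : G ≤ G')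
    (h : ∀ w : List (Fin b), Vd E C w → Ld E G' w ≤ Ld E G w) : G' ≤ G := by
  let T := {w : List (Fin b) // w.length = C.length}
  haveI : Finite T := List.finite_length_eq (Fin b) C.length
  have hlen : ∀ (t : W.H (twr X Z C).X) (w : List (Fin b)), cf E Z C t w ≠ 0 →
      w.length = C.length := fun t w hw => (List.Forall₂.length_eq (vd_of_cf E C t w hw)).symm
  have hmax : ∀ t : W.H (twr X Z C).X, t ≠ 0 → ∃ v : T, cf E Z C t v.1 ≠ 0 ∧
      ∀ w', v.1 < w' → cf E Z C t w' = 0 := by
    intro t ht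
    have h1 : ∃ w, cf E Z C t w ≠ 0 := by
      by_contra hcon
      push Not at hcon
      exact ht (cf_inj E C t hcon)
    obtain ⟨w, hw⟩ := h1
    have hfin : {v : T | cf E Z C t v.1 ≠ 0}.Finite := Set.toFinite _
    obtain ⟨v, hv, hv'⟩ := hfin.exists_maximal ⟨⟨w, hlen t w hw⟩, hw⟩
    refine ⟨v, hv, fun w' hw' => ?_⟩
    by_contra hne
    have h2 := hv' (y := ⟨w', hlen t w' hne⟩) hne (le_of_lt hw')
    exact absurd h2 (not_le_of_gt hw')
  have key : ∀ v : T, ∀ t ∈ G', (∀ w', v.1 < w' → cf E Z C t w' = 0) → t ∈ G := by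
    intro v
    induction v using WellFoundedLT.induction with
    | ind v ih =>
      intro t ht habove
      have h1 : ∃ t' ∈ G, (∀ w', v.1 < w' → cf E Z C t' w' = 0) ∧
          cf E Z C t' v.1 = cf E Z C t v.1 := by
        by_cases hv : Vd E C v.1
        · exact h v.1 hv ⟨t, ht, habove, rfl⟩
        · refine ⟨0, Submodule.zero_mem _, fun w' _ => by rw [map_zero]; rfl, ?_⟩
          rw [map_zero, Pi.zero_apply]
          by_contra hne
          exact hv (vd_of_cf E C t v.1 (Ne.symm hne))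
      obtain ⟨t', ht', h2, h3⟩ := h1
      by_cases h0 : t - t' = 0
      · rw [sub_eq_zero.1 h0]
        exact ht'
      obtain ⟨v', hv', hv''⟩ := hmax _ h0
      have h4 : ∀ w', v.1 ≤ w' → cf E Z C (t - t') w' = 0 := by
        intro w' hw'
        rw [map_sub, Pi.sub_apply]
        rcases hw'.eq_or_lt with h5 | h5
        · rw [← h5, h3, sub_self]
        · rw [habove w' h5, h2 w' h5, sub_zero]
      have h5 : v' < v := by
        by_contra hcon
        exact hv' (h4 v'.1 (not_lt.1 hcon))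
      have h6 := ih v' h5 (t - t') (Submodule.sub_mem _ ht (hG ht')) hv''
      have h7 := Submodule.add_mem _ h6 ht'
      rwa [sub_add_cancel] at h7
  intro t ht
  by_cases h0 : t = 0
  · rw [h0]
    exact Submodule.zero_mem _
  · obtain ⟨v, _, hv⟩ := hmax t h0
    exact key v t ht hv

/-- the letters which are basis vectors -/
abbrev Al (E : Ltr X b) : Type := {p : ι × Fin b // E.e p.1 p.2 ≠ 0}

theorem vd_map (w : List (Al E)) : Vd E (w.map fun p => p.1.1) (w.map fun p => p.1.2) := by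
  induction w with
  | nil => exact List.Forall₂.nil
  | cons p w ih => exact List.Forall₂.cons p.2 ih

theorem exists_word : ∀ {C : List ι} {w : List (Fin b)}, Vd E C w → ∃ p : List (Al E),
    (p.map fun p => p.1.1) = C ∧ (p.map fun p => p.1.2) = w
  | [], [], _ => ⟨[], rfl, rfl⟩
  | [], _ :: _, h => by cases h
  | _ :: _, [], h => by cases h
  | i :: C, s :: w, h => by
    have h1 : E.e i s ≠ 0 ∧ Vd E C w := by
      cases h with
      | cons h1 h2 => exact ⟨h1, h2⟩
    obtain ⟨p, hp, hp'⟩ := exists_word h1.2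
    refine ⟨⟨(i, s), h1.1⟩ :: p, ?_, ?_⟩
    · rw [List.map_cons, hp]
    · rw [List.map_cons, hp']

theorem exists_th {w w' : List (Al E)} (h : w.Sublist w') :
    ∃ u : Th (w.map fun p => p.1.1) (w'.map fun p => p.1.1),
      res (b := b) u (w'.map fun p => p.1.2) = w.map fun p => p.1.2 := by
  induction h with
  | slnil => exact ⟨Th.nil, rfl⟩
  | cons p _ ih =>
    obtain ⟨u, hu⟩ := ih
    exact ⟨u.skip _, hu⟩
  | cons_cons p _ ih =>
    obtain ⟨u, hu⟩ := ih
    exact ⟨u.keep _, congrArg (fun l => p.1.2 :: l) hu⟩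

/-- Homogeneous bases exist. -/
theorem exists_ltr [Finite ι] (X : ι → DG W Γ) : ∃ b, Nonempty (Ltr X b) := by
  classical
  have h1 : ∀ i, ∃ (n : ℕ) (B : Module.Basis (Fin n) W.K (W.H (X i).X)) (d : Fin n → ℕ),
      (∀ s, B s ∈ W.gr (X i).X (d s)) ∧
      ∀ s p, p ≠ d s → ∀ a ∈ W.gr (X i).X p, B.repr a s = 0 := by
    intro i
    let v : ∀ n, Module.Basis (Fin (Module.finrank W.K (W.gr (X i).X n))) W.K
      (W.gr (X i).X n) := fun n => Module.finBasis _ _
    let B := (W.isInternal (X i).X).collectedBasis v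
    haveI := Module.Finite.finite_basis B
    letI := Fintype.ofFinite (Σ n, Fin (Module.finrank W.K (W.gr (X i).X n)))
    let e := Fintype.equivFin (Σ n, Fin (Module.finrank W.K (W.gr (X i).X n)))
    refine ⟨_, B.reindex e, fun s => (e.symm s).1, ?_, ?_⟩
    · intro s
      rw [Module.Basis.reindex_apply]
      exact (W.isInternal (X i).X).collectedBasis_mem v _
    · intro s p hp a ha
      rw [Module.Basis.repr_reindex_apply]
      exact (W.isInternal (X i).X).collectedBasis_repr_of_mem_ne v hp ha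
  choose n B d h2 h3 using h1
  obtain ⟨b, hb⟩ : ∃ b, ∀ i, n i ≤ b := by
    obtain ⟨b, hb⟩ := (Set.finite_range n).bddAbove
    exact ⟨b, fun i => hb ⟨i, rfl⟩⟩
  refine ⟨b, ⟨{
    e := fun i s => if h : s.1 < n i then B i ⟨s.1, h⟩ else 0
    f := fun i s => if h : s.1 < n i then (B i).coord ⟨s.1, h⟩ else 0
    deg := fun i s => if h : s.1 < n i then d i ⟨s.1, h⟩ else 0
    e_mem := ?_
    f_ne := ?_
    sum := ?_
    f_self := ?_
    f_off := ?_ }⟩⟩
  · intro i s
    by_cases h : s.1 < n i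
    · simp only [dif_pos h]
      exact h2 i _
    · simp only [dif_neg h]
      exact Submodule.zero_mem _
  · intro i s p hp a ha
    by_cases h : s.1 < n i
    · simp only [dif_pos h] at hp ⊢
      exact h3 i _ p hp a ha
    · simp only [dif_neg h]
      rfl
  · intro i a
    have h4 : ∑ s : Fin b, (if h : s.1 < n i then (B i).coord ⟨s.1, h⟩ else
        (0 : W.H (X i).X →ₗ[W.K] W.K)) a • (if h : s.1 < n i then B i ⟨s.1, h⟩ else 0) =
        ∑ s : Fin (n i), (B i).repr a s • B i s := by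
      symm
      refine Finset.sum_of_injOn (Fin.castLE (hb i)) ?_ ?_ ?_ ?_
      · exact fun x _ y _ hxy => Fin.castLE_injective (hb i) hxy
      · exact fun x _ => Finset.mem_coe.2 (Finset.mem_univ _)
      · intro s _ hs
        rw [dif_neg, LinearMap.zero_apply, zero_smul]
        intro h
        exact hs ⟨⟨s.1, h⟩, Finset.mem_coe.2 (Finset.mem_univ _), rfl⟩
      · intro s _
        have h5 : (Fin.castLE (hb i) s).1 < n i := s.2
        rw [dif_pos h5, dif_pos h5]
        rfl
    rw [h4, (B i).sum_repr]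
  · intro i s hs
    by_cases h : s.1 < n i
    · simp only [dif_pos h]
      rw [Module.Basis.coord_apply, Module.Basis.repr_self, Finsupp.single_eq_same]
    · simp only [dif_neg h] at hs
      exact absurd rfl hs
  · intro i s s' hs
    by_cases h : s.1 < n i
    · by_cases h' : s'.1 < n i
      · simp only [dif_pos h, dif_pos h']
        rw [Module.Basis.coord_apply, Module.Basis.repr_self, Finsupp.single_eq_of_ne]
        intro h6
        exact hs (Fin.ext (by have := congrArg Fin.val h6; simpa using this))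
      · simp only [dif_neg h', map_zero]
    · simp only [dif_neg h]
      rfl

/-- **The Noetherian property.** -/
theorem exists_gen [Finite ι] (S : ∀ A : List ι, Set (W.H (twr X Z A).X)) :
    ∃ N, ∀ C : List ι, S C ⊆ gen S N C := by
  obtain ⟨b, ⟨E⟩⟩ := exists_ltr X
  obtain ⟨N, hN⟩ := exists_N (α := Al E)
    (fun N (w : List (Al E)) => Ld E (gen S N (w.map fun p => p.1.1)) (w.map fun p => p.1.2))
    (fun N M w h => Ld_mono E (gen_mono h _) _)
    (fun N w w' h => by
      obtain ⟨u, hu⟩ := exists_th E h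
      have h1 := Ld_ins (N := N) E (S := S) u (vd_map E w')
      rwa [hu] at h1)
    (fun N w => by
      refine Ld_mono E ?_ _
      have h1 := gen_len (S := S) N (w.map fun p => p.1.1)
      rwa [List.length_map] at h1)
  refine ⟨N, fun C => ?_⟩
  have h1 : gen S (max N C.length) C ≤ gen S N C := by
    refine le_of_Ld E (gen_mono (le_max_left _ _) C) fun w hw => ?_
    obtain ⟨p, rfl, rfl⟩ := exists_word E hw
    exact hN _ p
  exact (subset_gen C).trans (fun x hx => h1 (gen_mono (le_max_right _ _) C hx))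

end Pool.Agent.Y132.FG
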