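import Pool.Agent.Y132.FG.Dec
import Pool.Agent.Y132.FG.Defs

/-!
# The Tate classes on all products with powers are finitely generated
-/

open CategoryTheory AlgebraicGeometry Finset

set_option linter.unusedSectionVars false

universe u v w

namespace Pool.Agent.Y132.FG

open Pool.Agent.H914 Pool.Agent.H914.VarClass Pool.Agent.H914.VarClass.Obj
  Pool.Agent.H914.WeilCohomology Pool.Agent.H281R3.HT Pool.Agent.W552 Pool.Agent.TH125.Gal
  Pool.Agent.Y132.EP

variable {k : Type u} [Field k] {𝒱 : VarClass k} {ops : CycleOps 𝒱}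
  {W : WeilCohomology.{u, v} ops} {Γ : Type w} [Group Γ] {ι : Type}

theorem isTower_unique {X : ι → DG W Γ} {Z : DG W Γ} (l : List ι) :
    ∀ {Y : GVar W Γ}, IsTower (fun i => (X i).toGVar) Z.toGVar l Y →
      Y = (twr X Z l).toGVar := by
  induction l with
  | nil =>
    intro Y h
    cases h
    rfl
  | cons s l ih =>
    intro Y h
    cases h with
    | cons _ h1 h2 =>
      have h3 := ih h1
      subst h3
      exact isProdVar_unique h2

theorem isTower_twr (X : ι → DG W Γ) (Z : DG W Γ) (l : List ι) :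
    IsTower (fun i => (X i).toGVar) Z.toGVar l (twr X Z l).toGVar := by
  induction l with
  | nil => exact IsTower.nil
  | cons s l ih => exact IsTower.cons _ ih (isProdVar_prod _ _)

variable {X : ι → DG W Γ} {Z : DG W Γ} {χ : Γ →* W.Kˣ}

theorem isSubprod_pr : ∀ {A C : List ι} (u : Th A C),
    IsSubprod (fun i => (X i).toGVar) Z.toGVar A.length (twr X Z C).toGVar (twr X Z A).toGVar
      (pr X Z u)
  | _, _, .nil => IsSubprod.base
  | _, _, .keep i u => IsSubprod.keep i (isSubprod_pr u) (isProdVar_prod _ _) (isProdVar_prod _ _)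
  | _, _, .skip i u => IsSubprod.skip i (isSubprod_pr u) (isProdVar_prod _ _)

/-- The subalgebra generated by Tate classes on small products. -/
noncomputable def adj (χ : Γ →* W.Kˣ) (X : ι → DG W Γ) (Z : DG W Γ) (N : ℕ) (C : List ι) :
    Subalgebra W.K (W.H (twr X Z C).X) :=
  Algebra.adjoin W.K {c | ∃ (A : List ι) (u : Th A C) (j : ℕ) (t : W.H (twr X Z A).X),
    A.length ≤ N ∧ Tt χ (twr X Z A) j t ∧ c = W.map (pr X Z u) t}

theorem mem_adj {N : ℕ} {A C : List ι} (u : Th A C) {j : ℕ} {t : W.H (twr X Z A).X}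
    (hA : A.length ≤ N) (ht : Tt χ (twr X Z A) j t) : W.map (pr X Z u) t ∈ adj χ X Z N C :=
  Algebra.subset_adjoin ⟨A, u, j, t, hA, ht, rfl⟩

/-- **Finite generation.** -/
theorem main [Finite ι] (χ : Γ →* W.Kˣ) (hss : ∀ i L, SS (twr X (X i) L)) :
    ∃ N, ∀ (C : List ι) (j : ℕ) (t : W.H (twr X Z C).X), Tt χ (twr X Z C) j t →
      t ∈ adj χ X Z N C := by
  let S₁ : ∀ A : List ι, Set (W.H (twr X Z A).X) := fun A =>
    {t | t ∈ xp X Z A ∧ ∃ n, 0 < n ∧ Tt χ (twr X Z A) n t}
  let S₂ : ∀ A : List ι, Set (W.H (twr X Z A).X) := fun A => {t | ∃ n, Tt χ (twr X Z A) n t}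
  obtain ⟨N₁, hN₁⟩ := exists_gen S₁
  obtain ⟨N₂, hN₂⟩ := exists_gen S₂
  refine ⟨max N₁ N₂, fun C => ?_⟩
  have step0 : C = [] → ∀ j t, Tt χ (twr X Z C) j t → t ∈ adj χ X Z (max N₁ N₂) C := by
    rintro rfl j t ht
    have h1 := mem_adj (N := max N₁ N₂) (Th.refl []) (Nat.zero_le _) ht
    rwa [pr_refl] at h1
  have step1 : ∀ j, ∀ t ∈ xp X Z C, Tt χ (twr X Z C) j t → t ∈ adj χ X Z (max N₁ N₂) C := by
    intro j
    induction j using Nat.strong_induction_on with
    | _ j ih =>
      intro t ht htt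
      by_cases hC : C = []
      · exact step0 hC j t htt
      by_cases hj : j = 0
      · subst hj
        have h1 := htt.1
        rw [Nat.mul_zero, W.gr_zero] at h1
        obtain ⟨r, rfl⟩ := Submodule.mem_span_singleton.1 h1
        exact Subalgebra.smul_mem _ (Subalgebra.one_mem _) r
      · have h1 : t ∈ gen S₁ N₁ C := hN₁ C ⟨ht, j, Nat.pos_of_ne_zero hj, htt⟩
        obtain ⟨l, hl, hl'⟩ := tate_gen hss hC (fun A t ht => ⟨ht.2.choose,
          ht.2.choose_spec.2⟩) h1 htt
        rw [hl']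
        refine list_sum_mem ?_
        intro y hy
        obtain ⟨p, hp, rfl⟩ := List.mem_map.1 hy
        obtain ⟨-, n, hn, hn'⟩ := p.t_mem
        by_cases h0 : p.t = 0
        · rw [Trm.val, h0, map_zero, mul_zero]
          exact Subalgebra.zero_mem _
        have h3 : p.n = n := by
          by_contra hne
          apply h0
          have h4 := proj_same (W.isInternal (twr X Z p.A).X) p.t_tate.1
          rw [proj_ne _ hn'.1 (by omega)] at h4
          exact h4.symm
        have h4 := p.sum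
        exact Subalgebra.mul_mem _ (ih p.m (by omega) p.x p.x_mem (hl p hp))
          (mem_adj p.th (p.len.trans (le_max_left _ _)) p.t_tate)
  intro j t ht
  by_cases hC : C = []
  · exact step0 hC j t ht
  have h1 : t ∈ gen S₂ N₂ C := hN₂ C ⟨j, ht⟩
  obtain ⟨l, hl, hl'⟩ := tate_gen (j := j) hss hC (fun A t ht => ht) h1 ht
  rw [hl']
  refine list_sum_mem ?_
  intro y hy
  obtain ⟨p, hp, rfl⟩ := List.mem_map.1 hy
  exact Subalgebra.mul_mem _ (step1 p.m p.x p.x_mem (hl p hp))
    (mem_adj p.th (p.len.trans (le_max_right _ _)) p.t_tate)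

/-- **The Tate classes on all products are finitely generated.** -/
theorem tate_generated [Finite ι] {X : ι → GVar W Γ} {Z : GVar W Γ}
    (hX : ∀ i, GradedVar (X i)) (hZ : GradedVar Z)
    (hss : ∀ i L Y, IsTower X (X i) L Y → SemisimpleVar Y) :
    ∃ N, ∀ L Y, IsTower X Z L Y → ∀ j t, IsTateClass χ Y j t → t ∈ subprodAlg χ X Z N Y := by
  let X' : ι → DG W Γ := fun i => ⟨X i, hX i⟩
  let Z' : DG W Γ := ⟨Z, hZ⟩
  have h1 : ∀ i L, SS (twr X' (X' i) L) := fun i L => hss i L _ (isTower_twr X' (X' i) L)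
  obtain ⟨N, hN⟩ := main (X := X') (Z := Z') χ h1
  refine ⟨N, fun L Y hY j t ht => ?_⟩
  have h2 := isTower_unique (X := X') (Z := Z') L hY
  subst h2
  refine (Algebra.adjoin_mono ?_ : adj χ X' Z' N L ≤ _) (hN L j t ht)
  rintro c ⟨A, u, j', t', hA, ht', rfl⟩
  have h3 : IsSubprod X Z A.length (twr X' Z' L).toGVar (twr X' Z' A).toGVar (pr X' Z' u) :=
    isSubprod_pr (X := X') (Z := Z') u
  exact ⟨A.length, (twr X' Z' A).toGVar, pr X' Z' u, j', t', hA, h3, ht', rfl⟩

end Pool.Agent.Y132.FG
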