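import Pool.Agent.Y132.EP.Tow
import Pool.Agent.TH125.Gal.Kun

/-!
# Projections between products, expansions in words
-/

open CategoryTheory AlgebraicGeometry Finset

set_option linter.unusedSectionVars false

universe u v w

namespace Pool.Agent.Y132.FG

open Pool.Agent.H914 Pool.Agent.H914.VarClass Pool.Agent.H914.VarClass.Obj
  Pool.Agent.H914.WeilCohomology Pool.Agent.H281R3.HT Pool.Agent.W552 Pool.Agent.TH125.Gal
  Pool.Agent.Y132.EP

/-- Ways to embed a list into a second list. -/
inductive Th {ι : Type} : List ι → List ι → Type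
  | nil : Th [] []
  | keep (i : ι) {A C : List ι} : Th A C → Th (i :: A) (i :: C)
  | skip (i : ι) {A C : List ι} : Th A C → Th A (i :: C)

/-- composition -/
def Th.comp {ι : Type} : ∀ {A B C : List ι}, Th A B → Th B C → Th A C
  | _, _, _, t, .nil => t
  | _, _, _, t, .skip i u => .skip i (Th.comp t u)
  | _, _, _, .keep _ t, .keep i u => .keep i (Th.comp t u)
  | _, _, _, .skip _ t, .keep i u => .skip i (Th.comp t u)

theorem Th.length_le {ι : Type} : ∀ {A C : List ι}, Th A C → A.length ≤ C.length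
  | _, _, .nil => le_rfl
  | _, _, .keep _ u => Nat.succ_le_succ u.length_le
  | _, _, .skip _ u => Nat.le_succ_of_le u.length_le

/-- the identity -/
def Th.refl {ι : Type} : ∀ A : List ι, Th A A
  | [] => .nil
  | i :: A => .keep i (Th.refl A)

variable {k : Type u} [Field k] {𝒱 : VarClass k} {ops : CycleOps 𝒱}
  {W : WeilCohomology.{u, v} ops} {Γ : Type w} [Group Γ] {ι : Type}

/-- The products over a list. -/
@[reducible] noncomputable def twr (X : ι → DG W Γ) (Z : DG W Γ) : List ι → DG W Γ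
  | [] => Z
  | i :: l => (X i).prod (twr X Z l)

variable {X : ι → DG W Γ} {Z : DG W Γ}

/-- The projections. -/
noncomputable def pr (X : ι → DG W Γ) (Z : DG W Γ) : ∀ {A C : List ι}, Th A C →
    ((twr X Z C).X ⟶ (twr X Z A).X)
  | _, _, .nil => 𝟙 _
  | _, _, .keep i (A := A) (C := C) u =>
    Obj.lift (X := (X i).X) (Y := (twr X Z A).X) (fst (X i).X (twr X Z C).X)
      (snd (X i).X (twr X Z C).X ≫ pr X Z u)
  | _, _, .skip i (C := C) u => snd (X i).X (twr X Z C).X ≫ pr X Z u

section pr

variable {A C : List ι} (i : ι)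

theorem pr_nil (y : W.H Z.X) : W.map (pr X Z (Th.nil (ι := ι))) y = y := W.map_id _ y

theorem pr_keep_fst (u : Th A C) (a : W.H (X i).X) :
    W.map (pr X Z (u.keep i)) (W.map (fst (X i).X (twr X Z A).X) a) =
      W.map (fst (X i).X (twr X Z C).X) a := by
  rw [pr, ← W.map_comp]
  congr 2
  exact lift_fst _ _

theorem pr_keep_snd (u : Th A C) (y : W.H (twr X Z A).X) :
    W.map (pr X Z (u.keep i)) (W.map (snd (X i).X (twr X Z A).X) y) =
      W.map (snd (X i).X (twr X Z C).X) (W.map (pr X Z u) y) := by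
  rw [pr, ← W.map_comp, ← W.map_comp]
  congr 2
  exact lift_snd _ _

theorem pr_skip (u : Th A C) (y : W.H (twr X Z A).X) :
    W.map (pr X Z (u.skip i)) y = W.map (snd (X i).X (twr X Z C).X) (W.map (pr X Z u) y) := by
  rw [pr, W.map_comp]

end pr

theorem pr_comp : ∀ {A B C : List ι} (t : Th A B) (u : Th B C) (y : W.H (twr X Z A).X),
    W.map (pr X Z (t.comp u)) y = W.map (pr X Z u) (W.map (pr X Z t) y)
  | _, _, _, t, .nil, y => (pr_nil _).symm
  | _, _, _, t, .skip i u, y => by
    rw [Th.comp, pr_skip, pr_skip, pr_comp t u]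
  | _, _, _, .keep _ t, .keep i u, y => by
    refine W.kunneth_induction (p := fun y => W.map (pr X Z ((t.keep i).comp (u.keep i))) y =
      W.map (pr X Z (u.keep i)) (W.map (pr X Z (t.keep i)) y)) ?_ ?_ y
    · intro a b ha hb
      rw [map_add, map_add, map_add, ha, hb]
    · intro p q a _ b _
      rw [Th.comp, map_mul, map_mul, map_mul, pr_keep_fst, pr_keep_snd, pr_keep_fst, pr_keep_snd,
        pr_keep_fst, pr_keep_snd, pr_comp t u]
  | _, _, _, .skip _ t, .keep i u, y => by
    rw [Th.comp, pr_skip, pr_skip, pr_keep_snd, pr_comp t u]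

/-- The projections are equivariant. -/
theorem pr_act (g : Γ) : ∀ {A C : List ι} (u : Th A C) (y : W.H (twr X Z A).X),
    (twr X Z C).act g (W.map (pr X Z u) y) = W.map (pr X Z u) ((twr X Z A).act g y)
  | _, _, .nil, y => by
    rw [pr_nil, pr_nil]
  | _, _, .skip i u, y => by
    rw [pr_skip, pr_skip, DG.act_snd, pr_act g u]
  | _, _, .keep i u, y => by
    refine W.kunneth_induction (p := fun y => (twr X Z _).act g (W.map (pr X Z (u.keep i)) y) =
      W.map (pr X Z (u.keep i)) ((twr X Z _).act g y)) ?_ ?_ y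
    · intro a b ha hb
      rw [map_add, map_add, map_add, map_add, ha, hb]
    · intro p q a _ b _
      rw [map_mul, pr_keep_fst, pr_keep_snd, DG.act_ext, DG.act_ext, map_mul, pr_keep_fst,
        pr_keep_snd, pr_act g u]

/-- Homogeneous bases of the cohomology of the `X i`, indexed by (part of) one finite set. -/
structure Ltr (X : ι → DG W Γ) (b : ℕ) where
  e : ∀ i, Fin b → W.H (X i).X
  f : ∀ i, Fin b → (W.H (X i).X →ₗ[W.K] W.K)
  deg : ∀ _ : ι, Fin b → ℕ
  e_mem : ∀ i s, e i s ∈ W.gr (X i).X (deg i s)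
  f_ne : ∀ i s p, p ≠ deg i s → ∀ a ∈ W.gr (X i).X p, f i s a = 0
  sum : ∀ i a, ∑ s, f i s a • e i s = a
  f_self : ∀ i s, e i s ≠ 0 → f i s (e i s) = 1
  f_off : ∀ i s s', s ≠ s' → f i s (e i s') = 0

variable {b : ℕ} (E : Ltr X b)

theorem Ltr.f_zero {E : Ltr X b} {i : ι} {s : Fin b} (h : E.e i s = 0) (a : W.H (X i).X) :
    E.f i s a = 0 := by
  conv_lhs => rw [← E.sum i a]
  rw [map_sum]
  refine Finset.sum_eq_zero fun s' _ => ?_
  rw [map_smul]
  by_cases hs : s = s'
  · subst hs
    rw [h, map_zero, smul_zero]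
  · rw [E.f_off i s s' hs, smul_zero]

theorem expand_ltr (i : ι) {B : 𝒱.Obj} (y : W.H ((X i).X.prod B)) :
    y = ∑ s, W.map (fst (X i).X B) (E.e i s) * W.map (snd (X i).X B) (ctr (E.f i s) y) := by
  refine W.kunneth_induction (p := fun y => y = ∑ s, W.map (fst (X i).X B) (E.e i s) *
    W.map (snd (X i).X B) (ctr (E.f i s) y)) ?_ ?_ y
  · intro a c ha hc
    conv_lhs => rw [ha, hc]
    rw [← Finset.sum_add_distrib]
    refine Finset.sum_congr rfl fun s _ => ?_
    rw [map_add, map_add, mul_add]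
  · intro p q a _ c _
    simp only [ctr_apply, map_smul]
    conv_lhs => rw [← E.sum i a, map_sum, Finset.sum_mul]
    refine Finset.sum_congr rfl fun s _ => ?_
    rw [map_smul, smul_mul_assoc, mul_smul_comm]

/-- The coordinates with respect to words. -/
noncomputable def cf (Z : DG W Γ) : ∀ L : List ι,
    W.H (twr X Z L).X →ₗ[W.K] (List (Fin b) → W.H Z.X)
  | [] => LinearMap.pi fun w => match w with
    | [] => LinearMap.id
    | _ :: _ => 0
  | i :: L => LinearMap.pi fun w => match w with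
    | [] => 0
    | s :: w' => (LinearMap.proj w') ∘ₗ cf Z L ∘ₗ ctr (E.f i s)

theorem cf_nil_nil (y : W.H Z.X) : cf E Z [] y [] = y := rfl

theorem cf_nil_cons (y : W.H Z.X) (s : Fin b) (w : List (Fin b)) : cf E Z [] y (s :: w) = 0 :=
  rfl

theorem cf_cons_nil (i : ι) (L : List ι) (y : W.H (twr X Z (i :: L)).X) :
    cf E Z (i :: L) y [] = 0 := rfl

theorem cf_cons_cons (i : ι) (L : List ι) (y : W.H (twr X Z (i :: L)).X) (s : Fin b)
    (w : List (Fin b)) : cf E Z (i :: L) y (s :: w) = cf E Z L (ctr (E.f i s) y) w := rfl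

theorem cf_inj : ∀ (L : List ι) (y : W.H (twr X Z L).X), (∀ w, cf E Z L y w = 0) → y = 0
  | [], y, h => h []
  | i :: L, y, h => by
    rw [expand_ltr E i y]
    refine Finset.sum_eq_zero fun s _ => ?_
    rw [cf_inj L (ctr (E.f i s) y) fun w => by rw [← cf_cons_cons]; exact h _, map_zero,
      mul_zero]

/-- words whose letters are basis vectors -/
def Vd (E : Ltr X b) (C : List ι) (w : List (Fin b)) : Prop :=
  List.Forall₂ (fun i s => E.e i s ≠ 0) C w

theorem vd_of_cf : ∀ (L : List ι) (y : W.H (twr X Z L).X) (w : List (Fin b)),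
    cf E Z L y w ≠ 0 → Vd E L w
  | [], y, [], _ => List.Forall₂.nil
  | [], y, s :: w, h => absurd (cf_nil_cons E y s w) h
  | i :: L, y, [], h => absurd (cf_cons_nil E i L y) h
  | i :: L, y, s :: w, h => by
    rw [cf_cons_cons] at h
    refine List.Forall₂.cons ?_ (vd_of_cf L _ w h)
    intro h0
    have h1 : E.f i s = 0 := LinearMap.ext fun a => Ltr.f_zero h0 a
    have h2 : ctr (A := (X i).X) (Z := (twr X Z L).X) (E.f i s) y = 0 := by
      rw [h1, ctr]
      simp
    rw [h2, map_zero] at h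
    exact h rfl

/-- the product of the letters in the positions which are skipped -/
noncomputable def xw (Z : DG W Γ) : ∀ {A C : List ι}, Th A C → List (Fin b) →
    W.H (twr X Z C).X
  | _, _, .nil, _ => 1
  | _, _, .keep _ _, [] => 0
  | _, _, .keep i (C := C) u, _ :: w => W.map (snd (X i).X (twr X Z C).X) (xw Z u w)
  | _, _, .skip _ _, [] => 0
  | _, _, .skip i (C := C) u, s :: w => W.map (fst (X i).X (twr X Z C).X) (E.e i s) *
      W.map (snd (X i).X (twr X Z C).X) (xw Z u w)

/-- the letters in the positions which are kept -/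
def res : ∀ {A C : List ι}, Th A C → List (Fin b) → List (Fin b)
  | _, _, .nil, w => w
  | _, _, .keep _ _, [] => []
  | _, _, .keep _ u, s :: w => s :: res u w
  | _, _, .skip _ _, [] => []
  | _, _, .skip _ u, _ :: w => res u w

theorem xw_hom : ∀ {A C : List ι} (u : Th A C) (w : List (Fin b)),
    ∃ d, xw E Z u w ∈ W.gr (twr X Z C).X d
  | _, _, .nil, _ => ⟨0, W.one_mem _⟩
  | _, _, .keep _ _, [] => ⟨0, Submodule.zero_mem _⟩
  | _, _, .keep i u, _ :: w => by
    obtain ⟨d, hd⟩ := xw_hom u w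
    exact ⟨d, W.map_mem _ hd⟩
  | _, _, .skip _ _, [] => ⟨0, Submodule.zero_mem _⟩
  | _, _, .skip i u, s :: w => by
    obtain ⟨d, hd⟩ := xw_hom u w
    exact ⟨_, W.mul_mem (W.map_mem _ (E.e_mem i s)) (W.map_mem _ hd)⟩

/-- contraction of a product in a position which is kept -/
theorem ctr_keep {A C : List ι} (i : ι) (u : Th A C) (s : Fin b) {d : ℕ}
    {x : W.H (twr X Z C).X} (hx : x ∈ W.gr (twr X Z C).X d) (t : W.H (twr X Z (i :: A)).X) :
    ctr (A := (X i).X) (Z := (twr X Z C).X) (E.f i s)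
        (W.map (snd (X i).X (twr X Z C).X) x * W.map (pr X Z (u.keep i)) t) =
      (-1 : W.K) ^ (d * E.deg i s) •
        (x * W.map (pr X Z u) (ctr (A := (X i).X) (Z := (twr X Z A).X) (E.f i s) t)) := by
  refine W.kunneth_induction (p := fun t => ctr (A := (X i).X) (Z := (twr X Z C).X) (E.f i s)
        (W.map (snd (X i).X (twr X Z C).X) x * W.map (pr X Z (u.keep i)) t) =
      (-1 : W.K) ^ (d * E.deg i s) •
        (x * W.map (pr X Z u) (ctr (A := (X i).X) (Z := (twr X Z A).X) (E.f i s) t))) ?_ ?_ t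
  · intro a c ha hc
    rw [map_add, mul_add, map_add, ha, hc, map_add, map_add, mul_add, smul_add]
  · intro p q a ha c hc
    rw [map_mul (W.map (pr X Z (u.keep i))), pr_keep_fst, pr_keep_snd, ← mul_assoc,
      W.comm (W.map_mem (snd (X i).X (twr X Z C).X) hx)
        (W.map_mem (fst (X i).X (twr X Z C).X) ha), smul_mul_assoc, map_smul, mul_assoc,
      ← map_mul (W.map (snd (X i).X (twr X Z C).X)), ctr_apply, ctr_apply, map_smul]
    by_cases hp : p = E.deg i s
    · subst hp
      rw [mul_smul_comm]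
    · rw [E.f_ne i s p hp a ha, zero_smul, smul_zero, zero_smul, mul_zero, smul_zero]

/-- contraction of a product in a position which is skipped -/
theorem ctr_skip {A C : List ι} (i : ι) (u : Th A C) (s s' : Fin b)
    {x : W.H (twr X Z C).X} (t : W.H (twr X Z A).X) :
    ctr (A := (X i).X) (Z := (twr X Z C).X) (E.f i s')
        (W.map (fst (X i).X (twr X Z C).X) (E.e i s) * W.map (snd (X i).X (twr X Z C).X) x *
          W.map (pr X Z (u.skip i)) t) =
      E.f i s' (E.e i s) • (x * W.map (pr X Z u) t) := by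
  rw [pr_skip, mul_assoc, ← map_mul, ctr_apply]

/-- The leading coefficient. -/
theorem lead_eq : ∀ {A C : List ι} (u : Th A C) (w : List (Fin b)), Vd E C w →
    ∃ ε : W.K, ε ≠ 0 ∧ ∀ t, cf E Z C (xw E Z u w * W.map (pr X Z u) t) w =
      ε • cf E Z A t (res u w)
  | _, _, .nil, [], _ => ⟨1, one_ne_zero, fun t => by
      rw [xw, one_mul, pr_nil, one_smul, res]⟩
  | _, _, .nil, s :: w, h => by cases h
  | _, _, .keep i u, [], h => by cases h
  | _, _, .skip i u, [], h => by cases h
  | _, _, .keep i (C := C) u, s :: w, h => by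
    have hv : Vd E C w := by
      cases h with
      | cons _ h2 => exact h2
    obtain ⟨ε, hε, h1⟩ := lead_eq u w hv
    obtain ⟨d, hd⟩ := xw_hom E (Z := Z) u w
    refine ⟨(-1 : W.K) ^ (d * E.deg i s) * ε, mul_ne_zero (pow_ne_zero _ (by simp)) hε,
      fun t => ?_⟩
    rw [cf_cons_cons, xw, ctr_keep E i u s hd, map_smul, res, cf_cons_cons, Pi.smul_apply, h1,
      smul_smul]
  | _, _, .skip i (C := C) u, s :: w, h => by
    have hv : E.e i s ≠ 0 ∧ Vd E C w := by
      cases h with
      | cons h1 h2 => exact ⟨h1, h2⟩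
    obtain ⟨ε, hε, h1⟩ := lead_eq u w hv.2
    refine ⟨ε, hε, fun t => ?_⟩
    rw [cf_cons_cons, xw, ctr_skip, E.f_self i s hv.1, one_smul, res, h1]

/-- Words above the leading word do not occur. -/
theorem lead_gt : ∀ {A C : List ι} (u : Th A C) (w w' : List (Fin b)), w < w' →
    ∀ t, (∀ v, res u w < v → cf E Z A t v = 0) →
    cf E Z C (xw E Z u w * W.map (pr X Z u) t) w' = 0
  | _, _, _, w, [], h, _, _ => absurd h (List.not_lt_nil w)
  | _, _, .nil, w, s' :: w', _, t, _ => cf_nil_cons E _ s' w'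
  | _, _, .keep i u, [], s' :: w', h, t, ht => by
    rw [xw, zero_mul, map_zero]
    rfl
  | _, _, .skip i u, [], s' :: w', h, t, ht => by
    rw [xw, zero_mul, map_zero]
    rfl
  | _, _, .keep i (A := A) u, s :: w, s' :: w', h, t, ht => by
    obtain ⟨d, hd⟩ := xw_hom E (Z := Z) u w
    rw [cf_cons_cons, xw, ctr_keep E i u s' hd, map_smul, Pi.smul_apply]
    rw [List.cons_lt_cons_iff] at h
    rcases h with h | ⟨rfl, h⟩
    · have h1 : ctr (A := (X i).X) (Z := (twr X Z A).X) (E.f i s') t = 0 := by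
        refine cf_inj E _ _ fun v => ?_
        rw [← cf_cons_cons]
        exact ht _ (List.cons_lt_cons_iff.2 (Or.inl h))
      rw [h1, map_zero, mul_zero, map_zero, Pi.zero_apply, smul_zero]
    · rw [lead_gt u w w' h _ fun v hv => ?_, smul_zero]
      rw [← cf_cons_cons]
      exact ht _ (List.cons_lt_cons_iff.2 (Or.inr ⟨rfl, hv⟩))
  | _, _, .skip i u, s :: w, s' :: w', h, t, ht => by
    rw [cf_cons_cons, xw, ctr_skip, map_smul, Pi.smul_apply]
    rw [List.cons_lt_cons_iff] at h
    rcases h with h | ⟨rfl, h⟩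
    · rw [E.f_off i s' s h.ne', zero_smul]
    · rw [lead_gt u w w' h _ fun v hv => ht v hv, smul_zero]

end Pool.Agent.Y132.FG
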